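import Pool.Agent.Lib.MP_2da099_lc.QL.Q01
import Pool.Agent.Lib.MP_2da099_lc.QL.Q13
import Pool.Agent.Lib.MP_2da099_lc.QT.W12
import Pool.Agent.Lib.MP_2da099_lc.F03

/-!
# Time n^e (log n)^C
-/

set_option autoImplicit false

namespace Pool.Agent.WNQ

open Pool.Agent.Lib.PolyTime Pool.Agent.WPM Pool.Agent.WPR Pool.Agent.WQL Function

/-- The predicate `Z` on lists is decided in time `O(n ^ e (log n) ^ C)`. -/
def EL (e : ℝ) {ι : Type} [Enc ι] (Z : List ι → Prop) : Prop :=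
  ∃ (f : List ι → Bool) (T : List ι → ℕ) (C : ℕ), CT f T ∧ (∀ w, f w = true ↔ Z w) ∧
    ∀ w, (T w : ℝ) ≤ C * ((w.length : ℝ) + 1) ^ e * (lg w.length : ℝ) ^ C

theorem e_lg (n : ℕ) : (1 : ℝ) ≤ (lg n : ℝ) := by
  exact_mod_cast lg_pos n

theorem e_pos (e : ℝ) (n : ℕ) : 0 ≤ ((n : ℝ) + 1) ^ e := Real.rpow_nonneg (by positivity) _

theorem e_up (e : ℝ) {a : ℝ} (ha : 0 ≤ a) {b K : ℕ} (n : ℕ) (hb : b ≤ K) :
    a * ((n : ℝ) + 1) ^ e * (lg n : ℝ) ^ b ≤ a * ((n : ℝ) + 1) ^ e * (lg n : ℝ) ^ K :=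
  mul_le_mul_of_nonneg_left (pow_le_pow_right₀ (e_lg n) hb) (mul_nonneg ha (e_pos e n))

theorem e_bd (e : ℝ) {a : ℝ} {b K : ℕ} (n : ℕ) (hb : b ≤ K) (hK : a ≤ (K : ℝ)) :
    a * ((n : ℝ) + 1) ^ e * (lg n : ℝ) ^ b ≤ K * ((n : ℝ) + 1) ^ e * (lg n : ℝ) ^ K := by
  have h0 : (0 : ℝ) ≤ (lg n : ℝ) ^ b := by positivity
  refine (mul_le_mul_of_nonneg_right (mul_le_mul_of_nonneg_right hK (e_pos e n)) h0).trans ?_
  exact e_up e (Nat.cast_nonneg K) n hb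

theorem e_le_pow {e : ℝ} (he : 1 ≤ e) (n : ℕ) : (n : ℝ) + 1 ≤ ((n : ℝ) + 1) ^ e := by
  have h1 : (1 : ℝ) ≤ (n : ℝ) + 1 := by
    have : (0 : ℝ) ≤ (n : ℝ) := Nat.cast_nonneg n
    linarith
  calc (n : ℝ) + 1 = ((n : ℝ) + 1) ^ (1 : ℝ) := (Real.rpow_one _).symm
    _ ≤ ((n : ℝ) + 1) ^ e := Real.rpow_le_rpow_of_exponent_le h1 he

theorem e_mono {e e' : ℝ} (h : e ≤ e') (n : ℕ) : ((n : ℝ) + 1) ^ e ≤ ((n : ℝ) + 1) ^ e' := by
  have h1 : (1 : ℝ) ≤ (n : ℝ) + 1 := by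
    have : (0 : ℝ) ≤ (n : ℝ) := Nat.cast_nonneg n
    linarith
  exact Real.rpow_le_rpow_of_exponent_le h1 h

theorem EL.congr {e : ℝ} {ι : Type} [Enc ι] {Z Z' : List ι → Prop} (h : EL e Z)
    (hz : ∀ w, Z w ↔ Z' w) : EL e Z' := by
  obtain ⟨f, T, C, h1, h2, h3⟩ := h
  exact ⟨f, T, C, h1, fun w => (h2 w).trans (hz w), h3⟩

theorem EL.of_ql {e : ℝ} (he : 1 ≤ e) {ι : Type} [Enc ι] {Z : List ι → Prop} (h : QL Z) :
    EL e Z := by
  obtain ⟨f, T, C, h1, h2, h3⟩ := h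
  refine ⟨f, T, C, h1, h2, fun w => ?_⟩
  have h4 : (T w : ℝ) ≤ C * ((w.length : ℝ) + 1) * (lg w.length : ℝ) ^ C := by
    exact_mod_cast h3 w
  refine h4.trans ?_
  have h0 : (0 : ℝ) ≤ (lg w.length : ℝ) ^ C := by positivity
  exact mul_le_mul_of_nonneg_right (mul_le_mul_of_nonneg_left (e_le_pow he _) (Nat.cast_nonneg C)) h0

theorem EL.of_qq {e : ℝ} (he : 2 ≤ e) {ι : Type} [Enc ι] {Z : List ι → Prop}
    (h : Pool.Agent.WPQ.QQ Z) : EL e Z := by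
  obtain ⟨f, T, C, h1, h2, h3⟩ := h
  refine ⟨f, T, C * 2 ^ C + C, h1, h2, fun w => ?_⟩
  have h4 : T w ≤ (C * 2 ^ C) * (w.length + 1) ^ 2 * lg w.length ^ C := by
    refine (h3 w).trans ?_
    have h5 : Pool.Agent.WPU.lg w.length ^ C ≤ 2 ^ C * lg w.length ^ C := by
      rw [← mul_pow]
      exact Nat.pow_le_pow_left (Pool.Agent.WPQ.w12_lg w.length) C
    calc C * (w.length + 1) ^ 2 * Pool.Agent.WPU.lg w.length ^ C
        ≤ C * (w.length + 1) ^ 2 * (2 ^ C * lg w.length ^ C) := Nat.mul_le_mul_left _ h5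
      _ = _ := by ring
  have h6 : (T w : ℝ) ≤ (C * 2 ^ C) * ((w.length : ℝ) + 1) ^ 2 * (lg w.length : ℝ) ^ C := by
    exact_mod_cast h4
  refine h6.trans ?_
  have h7 : ((w.length : ℝ) + 1) ^ 2 ≤ ((w.length : ℝ) + 1) ^ e := by
    rw [← Real.rpow_two]
    exact e_mono he _
  have h0 : (0 : ℝ) ≤ (lg w.length : ℝ) ^ C := by positivity
  have hC : (0 : ℝ) ≤ (C : ℝ) * 2 ^ C := by positivity
  refine (mul_le_mul_of_nonneg_right (mul_le_mul_of_nonneg_left h7 hC) h0).trans ?_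
  refine e_bd e _ (Nat.le_add_left _ _) ?_
  push_cast
  have : (0 : ℝ) ≤ (C : ℝ) := Nat.cast_nonneg C
  linarith

theorem EL.of_good {e : ℝ} {r t : ℕ} (he : expo t ≤ e) {Z : List (Letter r) → Prop}
    (h : Good r t Z) : EL e Z := by
  obtain ⟨f, T, C, h1, h2, h3⟩ := h
  refine ⟨f, T, ⌈|C|⌉₊, h1, h2, fun w => ?_⟩
  refine (h3 w).trans ?_
  have hC : C ≤ (⌈|C|⌉₊ : ℝ) := (le_abs_self C).trans (Nat.le_ceil _)
  have h4 : C * ((w.length : ℝ) + 1) ^ expo t ≤ (⌈|C|⌉₊ : ℝ) * ((w.length : ℝ) + 1) ^ e :=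
    mul_le_mul hC (e_mono he _) (e_pos _ _) (Nat.cast_nonneg _)
  have h5 := e_up e (Nat.cast_nonneg (α := ℝ) ⌈|C|⌉₊) w.length (Nat.zero_le ⌈|C|⌉₊)
  rw [pow_zero, mul_one] at h5
  exact h4.trans h5

section
variable {ι ι' : Type} [Enc ι] [Finite ι] [Enc ι'] [Finite ι']

theorem EL_true {e : ℝ} (he : 1 ≤ e) : EL e (fun _ : List ι => True) := EL.of_ql he QL_true

theorem e_size : ∃ κ : ℕ, ∀ {e : ℝ}, 1 ≤ e → ∀ w : List ι,
    (size w : ℝ) ≤ κ * ((w.length : ℝ) + 1) ^ e := by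
  obtain ⟨κ, hκ⟩ := size_list_fin ι
  refine ⟨κ, fun he w => ?_⟩
  have h1 : ((size w : ℕ) : ℝ) ≤ κ * ((w.length : ℝ) + 1) := by
    have := hκ w
    calc ((size w : ℕ) : ℝ) ≤ ((κ * (w.length + 1) : ℕ) : ℝ) := by exact_mod_cast this
      _ = κ * ((w.length : ℝ) + 1) := by push_cast; ring
  exact h1.trans (mul_le_mul_of_nonneg_left (e_le_pow he w.length) (Nat.cast_nonneg κ))

theorem EL.and {e : ℝ} (he : 1 ≤ e) {Z Z' : List ι → Prop} (h : EL e Z) (h' : EL e Z') :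
    EL e (fun w => Z w ∧ Z' w) := by
  obtain ⟨f, T, C, h1, h2, h3⟩ := h
  obtain ⟨f', T', C', h1', h2', h3'⟩ := h'
  obtain ⟨κ, hκ⟩ := e_size (ι := ι)
  have hp : CT (fun w => (f w, f' w)) (fun w => size w + T w + T' w) := CT.pair h1 h1'
  have hc : CT (fun x : Bool × Bool => x.1 && x.2) (fun _ => 0) := CT.fin _
  have := hc.comp hp
  refine ⟨fun w => f w && f' w, _, κ + C + C', this, fun w => ?_, fun w => ?_⟩
  · show (f w && f' w) = true ↔ _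
    rw [Bool.and_eq_true, h2 w, h2' w]
  · have a1 := hκ he w
    have a2 := h3 w
    have a3 := h3' w
    have b1 := e_up e (Nat.cast_nonneg (α := ℝ) κ) w.length (Nat.zero_le (κ + C + C'))
    rw [pow_zero, mul_one] at b1
    have b2 := e_up e (Nat.cast_nonneg (α := ℝ) C) w.length (show C ≤ κ + C + C' by omega)
    have b3 := e_up e (Nat.cast_nonneg (α := ℝ) C') w.length (show C' ≤ κ + C + C' by omega)
    have h0 : (((size w + T w + T' w + 0 : ℕ)) : ℝ) = size w + T w + T' w := by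
      push_cast; ring
    show (((size w + T w + T' w + 0 : ℕ)) : ℝ) ≤ _
    rw [h0]
    push_cast
    have e1 : ((κ : ℝ) + C + C') * ((w.length : ℝ) + 1) ^ e * (lg w.length : ℝ) ^ (κ + C + C') =
      κ * ((w.length : ℝ) + 1) ^ e * (lg w.length : ℝ) ^ (κ + C + C') +
      C * ((w.length : ℝ) + 1) ^ e * (lg w.length : ℝ) ^ (κ + C + C') +
      C' * ((w.length : ℝ) + 1) ^ e * (lg w.length : ℝ) ^ (κ + C + C') := by ring
    rw [e1]
    linarith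

theorem EL_forall {e : ℝ} (he : 1 ≤ e) (m : ℕ) (Z : Fin m → List ι → Prop)
    (h : ∀ i, EL e (Z i)) : EL e (fun w => ∀ i, Z i w) := by
  induction m with
  | zero => exact (EL_true he).congr (fun w => ⟨fun _ i => i.elim0, fun _ => trivial⟩)
  | succ m ih =>
    have h1 := ih (fun i => Z i.succ) (fun i => h i.succ)
    exact (EL.and he (h 0) h1).congr (fun w => (Fin.forall_fin_succ (P := fun i => Z i w)).symm)

omit [Finite ι] [Finite ι'] in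
theorem EL.comp {e : ℝ} (he : 1 ≤ e) {Z : List ι → Prop} (h : EL e Z) {f : List ι' → List ι}
    (C : ℕ) (hf : CT f (fun w => w.length)) (hl : ∀ w, (f w).length ≤ C * (w.length + 1)) :
    EL e (fun w => Z (f w)) := by
  obtain ⟨f₀, T, C₀, h1, h2, h3⟩ := h
  obtain ⟨C₁, hC₁⟩ := lg_mul C
  have he0 : (0 : ℝ) ≤ e := le_trans zero_le_one he
  set A : ℝ := C₀ * ((C : ℝ) + 1) ^ e * (C₁ : ℝ) ^ C₀ with hA
  have hA0 : 0 ≤ A := by positivity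
  refine ⟨fun w => f₀ (f w), _, 1 + ⌈A⌉₊ + C₀, h1.comp hf, fun w => h2 (f w), fun w => ?_⟩
  have a1 := h3 (f w)
  have a2 := hl w
  have a3 : ((f w).length : ℝ) + 1 ≤ ((C : ℝ) + 1) * ((w.length : ℝ) + 1) := by
    have e1 : (C + 1) * (w.length + 1) = C * (w.length + 1) + (w.length + 1) := by ring
    have e2 : (f w).length + 1 ≤ (C + 1) * (w.length + 1) := by omega
    exact_mod_cast e2
  have a4 : (lg (f w).length : ℝ) ≤ C₁ * lg w.length := by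
    have e2 : lg (f w).length ≤ C₁ * lg w.length := (lg_mono a2).trans (hC₁ _)
    exact_mod_cast e2
  have a5 : (((f w).length : ℝ) + 1) ^ e ≤ ((C : ℝ) + 1) ^ e * ((w.length : ℝ) + 1) ^ e := by
    rw [← Real.mul_rpow (by positivity) (by positivity)]
    exact Real.rpow_le_rpow (by positivity) a3 he0
  have a6 : (lg (f w).length : ℝ) ^ C₀ ≤ (C₁ : ℝ) ^ C₀ * (lg w.length : ℝ) ^ C₀ := by
    rw [← mul_pow]
    exact pow_le_pow_left₀ (Nat.cast_nonneg _) a4 _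
  have a7 : C₀ * (((f w).length : ℝ) + 1) ^ e * (lg (f w).length : ℝ) ^ C₀ ≤
      A * ((w.length : ℝ) + 1) ^ e * (lg w.length : ℝ) ^ C₀ := by
    have e3 : A * ((w.length : ℝ) + 1) ^ e * (lg w.length : ℝ) ^ C₀ =
        (C₀ * (((C : ℝ) + 1) ^ e * ((w.length : ℝ) + 1) ^ e)) *
          ((C₁ : ℝ) ^ C₀ * (lg w.length : ℝ) ^ C₀) := by
      rw [hA]; ring
    rw [e3]
    have hp := e_pos e w.length
    exact mul_le_mul (mul_le_mul_of_nonneg_left a5 (Nat.cast_nonneg _)) a6 (by positivity)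
      (by positivity)
  have b1 : A * ((w.length : ℝ) + 1) ^ e * (lg w.length : ℝ) ^ C₀ ≤
      (⌈A⌉₊ : ℝ) * ((w.length : ℝ) + 1) ^ e * (lg w.length : ℝ) ^ C₀ := by
    have h0 : (0 : ℝ) ≤ (lg w.length : ℝ) ^ C₀ := by positivity
    exact mul_le_mul_of_nonneg_right
      (mul_le_mul_of_nonneg_right (Nat.le_ceil _) (e_pos e _)) h0
  have b2 := e_up e (Nat.cast_nonneg (α := ℝ) ⌈A⌉₊) w.length (show C₀ ≤ 1 + ⌈A⌉₊ + C₀ by omega)
  have b3 := e_up e (zero_le_one (α := ℝ)) w.length (Nat.zero_le (1 + ⌈A⌉₊ + C₀))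
  have b4 := e_up e (Nat.cast_nonneg (α := ℝ) C₀) w.length (Nat.zero_le (1 + ⌈A⌉₊ + C₀))
  rw [pow_zero, mul_one, one_mul] at b3
  have b5 := e_le_pow he w.length
  have b6 : (0 : ℝ) ≤ C₀ * ((w.length : ℝ) + 1) ^ e * (lg w.length : ℝ) ^ (1 + ⌈A⌉₊ + C₀) :=
    mul_nonneg (mul_nonneg (Nat.cast_nonneg _) (e_pos e _)) (by positivity)
  show (((w.length + T (f w) : ℕ)) : ℝ) ≤ _
  push_cast
  have e1 : (1 + (⌈A⌉₊ : ℝ) + C₀) * ((w.length : ℝ) + 1) ^ e *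
      (lg w.length : ℝ) ^ (1 + ⌈A⌉₊ + C₀) =
      1 * ((w.length : ℝ) + 1) ^ e * (lg w.length : ℝ) ^ (1 + ⌈A⌉₊ + C₀) +
      (⌈A⌉₊ : ℝ) * ((w.length : ℝ) + 1) ^ e * (lg w.length : ℝ) ^ (1 + ⌈A⌉₊ + C₀) +
      C₀ * ((w.length : ℝ) + 1) ^ e * (lg w.length : ℝ) ^ (1 + ⌈A⌉₊ + C₀) := by ring
  rw [e1]
  linarith

end

open Classical in
theorem EL.machine {e : ℝ} (he : 1 ≤ e) {r : ℕ} {Z : List (Letter r) → Prop} (h : EL e Z) :
    ∃ (M : Turing.TM2ComputableInTime (fun w : List (Letter r) => w) (fun b : Bool => [b])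
      (fun w => decide (Z w))) (C : ℕ), (∀ k, Finite (M.tm.Γ k)) ∧
      ∀ n : ℕ, (M.time n : ℝ) ≤ C * ((n : ℝ) + 1) ^ e * (Nat.log 2 (n + 2) : ℝ) ^ C := by
  obtain ⟨κ, hκ⟩ := e_size (ι := Letter r)
  obtain ⟨f, T, C, hf, hfz, hT⟩ := h
  have hfe : f = fun w => decide (Z w) := by
    funext w
    rw [Bool.eq_iff_iff, hfz, decide_eq_true_iff]
  rw [← hfe]
  have hrev : CT (fun w : List (Letter r) => f w.reverse) (fun w => size w + T w.reverse) :=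
    hf.comp CT.reverse
  obtain ⟨M, C', hfin, hM⟩ := CT.machine f _ hrev
    (fun n => ⌊((κ : ℝ) + C) * ((n : ℝ) + 1) ^ e * (lg n : ℝ) ^ C⌋₊) (by
      intro w
      refine Nat.le_floor ?_
      have e1 := hκ he w
      have e2 := hT w.reverse
      rw [List.length_reverse] at e2
      have e3 := e_up e (Nat.cast_nonneg (α := ℝ) κ) w.length (Nat.zero_le C)
      rw [pow_zero, mul_one] at e3
      push_cast
      have e4 : ((κ : ℝ) + C) * ((w.length : ℝ) + 1) ^ e * (lg w.length : ℝ) ^ C =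
        κ * ((w.length : ℝ) + 1) ^ e * (lg w.length : ℝ) ^ C +
        C * ((w.length : ℝ) + 1) ^ e * (lg w.length : ℝ) ^ C := by ring
      rw [e4]
      linarith)
  refine ⟨M, C' * (κ + C + 1) + C, hfin, fun n => ?_⟩
  have h1 : ((⌊((κ : ℝ) + C) * ((n : ℝ) + 1) ^ e * (lg n : ℝ) ^ C⌋₊ : ℕ) : ℝ) ≤
      ((κ : ℝ) + C) * ((n : ℝ) + 1) ^ e * (lg n : ℝ) ^ C :=
    Nat.floor_le (mul_nonneg (mul_nonneg (by positivity) (e_pos e n)) (by positivity))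
  have h3 : (M.time n : ℝ) ≤ C' * ((⌊((κ : ℝ) + C) * ((n : ℝ) + 1) ^ e * (lg n : ℝ) ^ C⌋₊ : ℕ)
      + n + 1) := by
    exact_mod_cast hM n
  refine h3.trans ?_
  have h4 := e_le_pow he n
  have h5 := e_up e (zero_le_one (α := ℝ)) n (Nat.zero_le C)
  rw [pow_zero, mul_one, one_mul] at h5
  have h6 : (⌊((κ : ℝ) + C) * ((n : ℝ) + 1) ^ e * (lg n : ℝ) ^ C⌋₊ : ℕ) + (n : ℝ) + 1 ≤
      ((κ : ℝ) + C + 1) * ((n : ℝ) + 1) ^ e * (lg n : ℝ) ^ C := by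
    have e4 : ((κ : ℝ) + C + 1) * ((n : ℝ) + 1) ^ e * (lg n : ℝ) ^ C =
        ((κ : ℝ) + C) * ((n : ℝ) + 1) ^ e * (lg n : ℝ) ^ C +
        1 * ((n : ℝ) + 1) ^ e * (lg n : ℝ) ^ C := by ring
    rw [e4]
    linarith
  refine (mul_le_mul_of_nonneg_left h6 (Nat.cast_nonneg C')).trans ?_
  have h7 : (C' : ℝ) * (((κ : ℝ) + C + 1) * ((n : ℝ) + 1) ^ e * (lg n : ℝ) ^ C) =
      ((C' * (κ + C + 1) : ℕ) : ℝ) * ((n : ℝ) + 1) ^ e * (lg n : ℝ) ^ C := by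
    push_cast; ring
  rw [h7]
  refine e_bd e n (Nat.le_add_left _ _) ?_
  push_cast
  have : (0 : ℝ) ≤ (C : ℝ) := Nat.cast_nonneg C
  linarith

end Pool.Agent.WNQ
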