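import Pool.Agent.Lib.MP_2da099_lc.QL.G1b

/-!
# Instructions, without independence of the elements `x`
-/

set_option autoImplicit false

namespace Pool.Agent.WNQ

open Pool.Agent.Lib.PolyTime Pool.Agent.WPM Pool.Agent.WPR Pool.Agent.WQL Function

universe u

theorem exists_instrN {G : Type u} [Group G] (A : Subgroup G) [A.Normal]
    (hcomm : ∀ a ∈ A, ∀ b ∈ A, a * b = b * a)
    (hquot : ∀ x y : G, x * y * x⁻¹ * y⁻¹ ∈ A) {r m : ℕ} (g : Fin r → G)
    (hg : Subgroup.closure (Set.range g) = ⊤) (x : Fin m → G)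
    (hx : ∀ h : G, ∃ k, 0 < k ∧ h ^ k ∈ Subgroup.closure (Set.range x) ⊔ A) :
    ∃ (k : ℕ) (N : Submodule (LM m) (Fin k → LM m)) (tr : List (Letter r) → List (IM m k))
      (C : ℕ), CT tr (fun w => w.length) ∧ (∀ w, (tr w).length ≤ C * (w.length + 1)) ∧
      ∀ w, value g w = 1 ↔ vcM (tr w) ∈ N := by
  classical
  obtain ⟨M, iM, ρ, D, θ, hρA, hD, hD0, hθD, hθρ⟩ := exists_derivationT A hcomm
  obtain ⟨k, c, tr, C, hct, hlen, htr⟩ := exists_tr A hquot g hg x hx
  have hw := htr M ρ D hρA hD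
  obtain ⟨h, hh, hadd, -⟩ := a02_mk_gpow A hquot x
  have hρ : ∀ x y : G, (x : G ⧸ A) = y → ρ x = ρ y := by
    intro x y hxy
    have h1 : x⁻¹ * y ∈ A := QuotientGroup.eq.mp hxy
    have h2 : y = x * (x⁻¹ * y) := by group
    rw [h2, map_mul, hρA _ h1, mul_one]
  have h0 : h 0 = 1 := by
    have h2 := hadd 0 0
    rw [add_zero] at h2
    exact (left_eq_mul.mp h2)
  let σ : Multiplicative (Fin m → ℤ) →* AddMonoid.End M :=
    { toFun := fun v => ρ (gpow x (Multiplicative.toAdd v))
      map_one' := by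
        have h1 : ((gpow x (0 : Fin m → ℤ) : G) : G ⧸ A) = ((1 : G) : G ⧸ A) := by
          rw [← hh, h0, QuotientGroup.mk_one]
        change ρ (gpow x (0 : Fin m → ℤ)) = 1
        rw [hρ _ _ h1, map_one]
      map_mul' := by
        intro v w
        change ρ (gpow x (Multiplicative.toAdd v + Multiplicative.toAdd w))
          = ρ (gpow x (Multiplicative.toAdd v)) * ρ (gpow x (Multiplicative.toAdd w))
        rw [← map_mul]
        apply hρ
        rw [QuotientGroup.mk_mul, ← hh, ← hh, ← hh]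
        exact hadd _ _ }
  let Φ : LM m →+* AddMonoid.End M :=
    (AddMonoidAlgebra.lift ℤ (AddMonoid.End M) (Fin m → ℤ) σ : LM m →ₐ[ℤ] AddMonoid.End M).toRingHom
  let iMod : Module (LM m) M := Module.compHom M Φ
  have hmm : ∀ (v : Fin m → ℤ) (y : M), (mo v : LM m) • y = ρ (gpow x v) y := by
    intro v y
    show (Φ (mo v)) y = _
    have h1 : Φ (mo v) = ρ (gpow x v) := by
      show AddMonoidAlgebra.lift ℤ (AddMonoid.End M) (Fin m → ℤ) σ (AddMonoidAlgebra.single v 1) = _
      rw [AddMonoidAlgebra.lift_single, one_smul]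
      rfl
    rw [h1]
  let b : Fin k → M := fun κ => ρ (c κ).1 (D (c κ).2)
  have hmem : ∀ F : Fin k → LM m, F ∈ LinearMap.ker (Fintype.linearCombination (LM m) b) ↔
      ∑ κ, F κ • b κ = 0 := by
    intro F
    rw [LinearMap.mem_ker, Fintype.linearCombination_apply]
  refine ⟨k, LinearMap.ker (Fintype.linearCombination (LM m) b), tr, C, hct, hlen, ?_⟩
  · intro w
    rw [hmem, sum_vcM_smul, ← hD0 (value g w), hw w]
    have e : (posM 0 (tr w)).map (fun z => ρ (gpow x z.1 * (c z.2).1) (D (c z.2).2)) =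
        (posM 0 (tr w)).map (fun z => (mo z.1 : LM m) • b z.2) := by
      refine List.map_congr_left fun z _ => ?_
      rw [hmm, map_mul]
      rfl
    rw [e]

end Pool.Agent.WNQ
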