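import Pool.Agent.Lib.MP_2da099_lc.QL.Defs
import Pool.Agent.Lib.MP_2da099_lc.QL.R1
import Pool.Agent.Lib.MP_2da099_lc.UE.Defs
import Pool.Agent.Lib.MP_2da099_lc.A04

/-!
# The transfer from instructions to words
-/

set_option autoImplicit false

namespace Pool.Agent.WNQ

open Pool.Agent.Lib.PolyTime Pool.Agent.WPM Pool.Agent.WPR Pool.Agent.WQL Function

open Pool.Agent.WPU (LamZ monZ vecW)

/-- The first `m` coordinates. -/
def pr (m k : ℕ) : (Fin (m + k) → ℤ) →+ (Fin m → ℤ) where
  toFun v := fun i => v (Fin.castAdd k i)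
  map_zero' := rfl
  map_add' _ _ := rfl

/-- The ring homomorphism which sends the last variables to `1`. -/
noncomputable def th (m k : ℕ) : LamZ (m + k) →+* LM m :=
  AddMonoidAlgebra.mapDomainRingHom ℤ (pr m k)

theorem th_monZ {m k : ℕ} (v : Fin (m + k) → ℤ) : th m k (monZ v) = mo (pr m k v) := by
  unfold th monZ mo
  rw [AddMonoidAlgebra.mapDomainRingHom_apply, AddMonoidAlgebra.mapDomain_single]

/-- Instructions as words. -/
def tau {m k : ℕ} : IM m k → List (Letter (m + k))
  | Sum.inl a => [(Fin.castAdd k a.1, a.2)]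
  | Sum.inr κ => [(Fin.natAdd m κ, true)]

/-- Vectors of words as vectors of instructions. -/
noncomputable def Th {m k : ℕ} (x : Letter (m + k) → LamZ (m + k)) : Fin k → LM m :=
  fun κ => th m k (x (Fin.natAdd m κ, true))

theorem Th_add {m k : ℕ} (x y : Letter (m + k) → LamZ (m + k)) : Th (x + y) = Th x + Th y := by
  funext κ
  exact map_add _ _ _

theorem Th_zero {m k : ℕ} : Th (0 : Letter (m + k) → LamZ (m + k)) = 0 := by
  funext κ
  exact map_zero _

theorem Th_smul {m k : ℕ} (f : LamZ (m + k)) (x : Letter (m + k) → LamZ (m + k)) :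
    Th (f • x) = th m k f • Th x := by
  funext κ
  exact map_mul _ _ _

theorem Th_single {m k : ℕ} (κ : Fin k) (v : Fin (m + k) → ℤ) :
    Th (Pi.single (Fin.natAdd m κ, true) (monZ v) : Letter (m + k) → LamZ (m + k)) =
      Pi.single κ (mo (pr m k v)) := by
  funext κ'
  unfold Th
  by_cases h : κ' = κ
  · subst h
    rw [Pi.single_eq_same, Pi.single_eq_same, th_monZ]
  · have h2 : ((Fin.natAdd m κ', true) : Letter (m + k)) ≠ (Fin.natAdd m κ, true) := by
      intro h3
      apply h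
      have h4 := congrArg Prod.fst h3
      exact (Fin.natAdd_inj m).mp h4
    rw [Pi.single_eq_of_ne h2, Pi.single_eq_of_ne h, map_zero]

theorem Th_single_move {m k : ℕ} (i : Fin m) (b : Bool) (v : Fin (m + k) → ℤ) :
    Th (Pi.single (Fin.castAdd k i, b) (monZ v) : Letter (m + k) → LamZ (m + k)) = 0 := by
  funext κ
  unfold Th
  have h2 : ((Fin.natAdd m κ, true) : Letter (m + k)) ≠ (Fin.castAdd k i, b) := by
    intro h3
    have h4 := congrArg (fun x : Letter (m + k) => (x.1 : ℕ)) h3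
    simp only [Fin.val_natAdd, Fin.val_castAdd] at h4
    have := i.2
    omega
  rw [Pi.single_eq_of_ne h2, map_zero]
  rfl

theorem pr_move {m k : ℕ} (i : Fin m) (b : Bool) :
    pr m k (sz (sgl (Fin.castAdd k i, b))) = stv (i, b) := by
  funext j
  show ((sgl (Fin.castAdd k i, b) (Fin.castAdd k j) : SignType) : ℤ) = stv (i, b) j
  unfold sgl stv
  by_cases h : j = i
  · subst h
    rw [if_pos rfl, Pi.single_eq_same]
    cases b <;> simp
  · have h2 : ¬ Fin.castAdd k j = Fin.castAdd k i := by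
      intro h3
      exact h (Fin.castAdd_injective m k h3)
    rw [if_neg h2, Pi.single_eq_of_ne h]
    simp

theorem pr_token {m k : ℕ} (κ : Fin k) : pr m k (sz (sgl (Fin.natAdd m κ, true))) = 0 := by
  funext j
  show ((sgl (Fin.natAdd m κ, true) (Fin.castAdd k j) : SignType) : ℤ) = 0
  unfold sgl
  have h2 : ¬ Fin.castAdd k j = Fin.natAdd m κ := by
    intro h3
    have h4 := congrArg (fun x : Fin (m + k) => (x : ℕ)) h3
    simp only [Fin.val_natAdd, Fin.val_castAdd] at h4
    have := j.2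
    omega
  rw [if_neg h2]
  rfl

theorem Th_path {m k : ℕ} (I : List (IM m k)) : ∀ c : Fin (m + k) → ℤ,
    Th (((posl c (I.flatMap tau)).map
      (fun x => (Pi.single x.2 (monZ x.1) : Letter (m + k) → LamZ (m + k)))).sum) =
    ((posM (pr m k c) I).map (fun x => (Pi.single x.2 (mo x.1) : Fin k → LM m))).sum := by
  induction I with
  | nil =>
    intro c
    exact Th_zero
  | cons a I ih =>
    intro c
    rcases a with ⟨i, b⟩ | κ
    · have e1 : posl c ((Sum.inl (i, b) :: I : List (IM m k)).flatMap tau) =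
        (c, (Fin.castAdd k i, b)) :: posl (c + sz (sgl (Fin.castAdd k i, b))) (I.flatMap tau) := rfl
      have e2 : posM (pr m k c) (Sum.inl (i, b) :: I : List (IM m k)) =
        posM (pr m k c + stv (i, b)) I := rfl
      rw [e1, e2, List.map_cons, List.sum_cons, Th_add, Th_single_move, zero_add, ih, map_add,
        pr_move]
    · have e1 : posl c ((Sum.inr κ :: I : List (IM m k)).flatMap tau) =
        (c, (Fin.natAdd m κ, true)) :: posl (c + sz (sgl (Fin.natAdd m κ, true)))
          (I.flatMap tau) := rfl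
      have e2 : posM (pr m k c) (Sum.inr κ :: I : List (IM m k)) =
        (pr m k c, κ) :: posM (pr m k c) I := rfl
      rw [e1, e2, List.map_cons, List.sum_cons, List.map_cons, List.sum_cons, Th_add, Th_single,
        ih, map_add, pr_token, add_zero]

theorem Th_vecW {m k : ℕ} (I : List (IM m k)) : Th (vecW (I.flatMap tau)) = vcM I := by
  have h := Th_path I 0
  rw [map_zero] at h
  exact h

/-- The preimage of a submodule. -/
noncomputable def Qp {m k : ℕ} (Q : Submodule (LM m) (Fin k → LM m)) :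
    Submodule (LamZ (m + k)) (Letter (m + k) → LamZ (m + k)) where
  carrier := {x | Th x ∈ Q}
  zero_mem' := by
    show Th 0 ∈ Q
    rw [Th_zero]
    exact Q.zero_mem
  add_mem' := by
    intro x y hx hy
    show Th (x + y) ∈ Q
    rw [Th_add]
    exact Q.add_mem hx hy
  smul_mem' := by
    intro f x hx
    show Th (f • x) ∈ Q
    rw [Th_smul]
    exact Q.smul_mem _ hx

theorem transfer {m k : ℕ} (Q : Submodule (LM m) (Fin k → LM m)) (P : Ideal (LM m))
    (h1 : ∀ f, f ∉ P → ∀ x, f • x ∈ Q → x ∈ Q) (n : ℕ) (h2 : ∀ f ∈ P ^ n, ∀ x, f • x ∈ Q) :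
    (∀ I : List (IM m k), vecW (I.flatMap tau) ∈ Qp Q ↔ vcM I ∈ Q) ∧
      (∀ f, f ∉ P.comap (th m k) → ∀ x, f • x ∈ Qp Q → x ∈ Qp Q) ∧
      ∀ f ∈ (P.comap (th m k)) ^ n, ∀ x, f • x ∈ Qp Q := by
  refine ⟨fun I => ?_, fun f hf x hx => ?_, fun f hf x => ?_⟩
  · show Th (vecW (I.flatMap tau)) ∈ Q ↔ vcM I ∈ Q
    rw [Th_vecW]
  · have h3 : Th (f • x) ∈ Q := hx
    rw [Th_smul] at h3
    exact h1 _ (fun h => hf h) _ h3
  · have h3 : th m k f ∈ P ^ n := by
      have h4 : (P.comap (th m k)) ^ n ≤ (P ^ n).comap (th m k) := Ideal.le_comap_pow _ _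
      exact h4 hf
    show Th (f • x) ∈ Q
    rw [Th_smul]
    exact h2 _ h3 _

private theorem exists_prime_mem' {R : Type} [CommRing R] (P : Ideal R) (hP : P.IsPrime) :
    ∀ n : ℕ, 0 < n → (n : R) ∈ P → ∃ p : ℕ, p.Prime ∧ (p : R) ∈ P := by
  intro n
  induction n using Nat.strong_induction_on with
  | _ n ih =>
    intro hn0 hn
    by_cases h1 : n = 1
    · subst h1
      rw [Nat.cast_one] at hn
      exact absurd ((Ideal.eq_top_iff_one P).mpr hn) hP.ne_top
    · obtain ⟨c, hc⟩ := Nat.minFac_dvd n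
      have hp := Nat.minFac_prime h1
      have h2 : ((n.minFac : ℕ) : R) * ((c : ℕ) : R) ∈ P := by
        rw [← Nat.cast_mul, ← hc]
        exact hn
      rcases hP.mem_or_mem h2 with h3 | h3
      · exact ⟨_, hp, h3⟩
      · have hc0 : 0 < c := by
          rcases Nat.eq_zero_or_pos c with h | h
          · rw [h, mul_zero] at hc
            omega
          · exact h
        have hcn : c < n := by
          have := hp.two_le
          calc c < 2 * c := by omega
            _ ≤ n.minFac * c := Nat.mul_le_mul_right c this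
            _ = n := hc.symm
        exact ih c hcn hc0 h3

theorem comps_LM {m k : ℕ} (N : Submodule (LM m) (Fin k → LM m)) :
    ∃ (s : ℕ) (Q : Fin s → Submodule (LM m) (Fin k → LM m)) (P : Fin s → Ideal (LM m)),
      (∀ x, x ∈ N ↔ ∀ i, x ∈ Q i) ∧
      ∀ i, (P i).IsPrime ∧
        ((∀ n : ℤ, n ≠ 0 → (n : LM m) ∉ P i) ∨ ∃ p : ℕ, p.Prime ∧ (p : LM m) ∈ P i) ∧
        (∀ f, f ∉ P i → ∀ x, f • x ∈ Q i → x ∈ Q i) ∧
        ∃ k : ℕ, ∀ f ∈ (P i) ^ k, ∀ x, f • x ∈ Q i := by
  classical
  haveI : IsNoetherianRing (LM m) := noeth_LM m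
  obtain ⟨s, Q, P, hQ, hP⟩ := lasker (LM m) (Fin k) N
  refine ⟨s, Q, P, hQ, fun i => ?_⟩
  obtain ⟨h1, h2, h3, h4⟩ := hP i
  refine ⟨h1, ?_, h3, h4⟩
  by_cases hi : ∀ n : ℤ, n ≠ 0 → (n : LM m) ∉ P i
  · exact Or.inl hi
  · right
    push Not at hi
    obtain ⟨n, hn0, hn⟩ := hi
    have hn' : ((n.natAbs : ℕ) : LM m) ∈ P i := by
      rcases Int.natAbs_eq n with h5 | h5
      · have h0 : ((n.natAbs : ℕ) : ℤ) = n := h5.symm
        have h6 : ((n.natAbs : ℕ) : LM m) = (n : LM m) := by
          rw [← Int.cast_natCast, h0]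
        rw [h6]; exact hn
      · have h0 : ((n.natAbs : ℕ) : ℤ) = -n := by omega
        have h6 : ((n.natAbs : ℕ) : LM m) = -(n : LM m) := by
          rw [← Int.cast_natCast, h0, Int.cast_neg]
        rw [h6]; exact (P i).neg_mem hn
    exact exists_prime_mem' (P i) h1 n.natAbs (Int.natAbs_pos.mpr hn0) hn'

end Pool.Agent.WNQ
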