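import Pool.Agent.Lib.MP_2da099_lc.UE.N0
import Pool.Agent.Lib.MP_2da099_lc.UE.B3a
import Pool.Agent.Lib.MP_2da099_lc.QL.L01

/-!
# X1: transcendence degree of the residue fields of `LM m` in characteristic `p`
-/

set_option autoImplicit false

namespace Pool.Agent.WNQ

open Pool.Agent.Lib.PolyTime Pool.Agent.WPM Pool.Agent.WPR Pool.Agent.WPU Pool.Agent.WQL

/-- The polynomials in the Laurent polynomials. -/
private noncomputable def x1phi (m : ℕ) : SP m →ₐ[ℤ] LM m :=
  MvPolynomial.aeval (fun i => (mo (Pi.single i 1) : LM m))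

private theorem x1_nat {m : ℕ} (v : Fin m → ℕ) :
    (mo (fun i => (v i : ℤ)) : LM m) = ∏ i, (mo (Pi.single i 1) : LM m) ^ v i := by
  have h : (fun i => (v i : ℤ)) = ∑ i, v i • (Pi.single i (1 : ℤ) : Fin m → ℤ) := by
    funext j
    rw [Finset.sum_apply, Finset.sum_eq_single j]
    · simp
    · intro i _ hij
      simp [hij.symm]
    · simp
  rw [h]
  have key : ∀ s : Finset (Fin m), (mo (∑ i ∈ s, v i • (Pi.single i (1 : ℤ) : Fin m → ℤ)) : LM m) =
      ∏ i ∈ s, (mo (Pi.single i 1) : LM m) ^ v i := by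
    intro s
    classical
    induction s using Finset.induction_on with
    | empty => simp [mo_zero]
    | insert a s ha ih =>
      rw [Finset.sum_insert ha, Finset.prod_insert ha, mo_add, ih, mo_pow]
  exact key _

private theorem x1_mem {m : ℕ} (v : Fin m → ℕ) : ∃ q, x1phi m q = mo (fun i => (v i : ℤ)) := by
  refine ⟨∏ i, MvPolynomial.X i ^ v i, ?_⟩
  rw [x1_nat, map_prod]
  refine Finset.prod_congr rfl fun i _ => ?_
  rw [map_pow]
  unfold x1phi
  rw [MvPolynomial.aeval_X]

private theorem x1_clear {m : ℕ} (F : LM m) :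
    ∃ (v : Fin m → ℕ) (q : SP m), x1phi m q = mo (fun i => (v i : ℤ)) * F := by
  induction F using AddMonoidAlgebra.induction_linear with
  | zero => exact ⟨0, 0, by simp⟩
  | add F G hF hG =>
    obtain ⟨v, q, hq⟩ := hF
    obtain ⟨w, q', hq'⟩ := hG
    obtain ⟨a, ha⟩ := x1_mem v
    obtain ⟨b, hb⟩ := x1_mem w
    refine ⟨v + w, b * q + a * q', ?_⟩
    have e : (fun i => (((v + w) i : ℕ) : ℤ)) = (fun i => (v i : ℤ)) + (fun i => (w i : ℤ)) := by
      funext i
      simp
    rw [e, mo_add, map_add, map_mul, map_mul, ha, hb, hq, hq']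
    ring
  | single v c =>
    obtain ⟨a, ha⟩ := x1_mem (fun i => (v i).toNat)
    refine ⟨fun i => (-(v i)).toNat, c • a, ?_⟩
    have e1 : (AddMonoidAlgebra.single v c : LM m) = c • mo v := by
      unfold mo
      rw [AddMonoidAlgebra.smul_single, smul_eq_mul, mul_one]
    have e2 : (fun i => ((-(v i)).toNat : ℤ)) + v = fun i => ((v i).toNat : ℤ) := by
      funext i
      simp only [Pi.add_apply]
      omega
    rw [map_zsmul, ha, e1, mul_smul_comm, ← mo_add, e2]

private theorem x1_rel {m p : ℕ} (f : LM m) (hf2 : ¬ (p : LM m) ∣ f) :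
    ∃ (v : Fin m → ℕ) (q : SP m), x1phi m q = mo (fun i => (v i : ℤ)) * f ∧
      ∀ q' : SP m, q ≠ p * q' := by
  obtain ⟨v, q, hq⟩ := x1_clear f
  refine ⟨v, q, hq, fun q' h => hf2 ?_⟩
  refine ⟨mo (-(fun i => (v i : ℤ))) * x1phi m q', ?_⟩
  rw [h, map_mul, map_natCast] at hq
  have e : (mo (-(fun i => (v i : ℤ))) : LM m) * mo (fun i => (v i : ℤ)) = 1 := by
    rw [← mo_add, neg_add_cancel, mo_zero]
  calc f = (mo (-(fun i => (v i : ℤ))) * mo (fun i => (v i : ℤ))) * f := by rw [e, one_mul]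
    _ = mo (-(fun i => (v i : ℤ))) * (mo (fun i => (v i : ℤ)) * f) := mul_assoc _ _ _
    _ = mo (-(fun i => (v i : ℤ))) * (p * x1phi m q') := by rw [hq]
    _ = _ := by ring

private theorem x1_trdeg {m p : ℕ} [Fact p.Prime] (K : Type) [Field K] [Algebra (ZMod p) K]
    (π : LM m →+* K) (hfrac : ∀ z : K, ∃ F G : LM m, z = π F / π G) (f : LM m) (hf : π f = 0)
    (hf2 : ¬ (p : LM m) ∣ f) : Algebra.trdeg (ZMod p) K ≤ ((m - 1 : ℕ) : Cardinal) := by
  classical
  let y : Fin m → K := fun i => π (mo (Pi.single i 1))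
  let B := Algebra.adjoin (ZMod p) (Set.range y)
  have hyB : ∀ i, IsAlgebraic B (y i) := fun i =>
    isAlgebraic_algebraMap (A := K) (⟨y i, Algebra.subset_adjoin ⟨i, rfl⟩⟩ : B)
  have hint : ∀ c : ℤ, IsAlgebraic B (c : K) := fun c => by
    have := isAlgebraic_algebraMap (R := B) (A := K) (c : B)
    rwa [map_intCast] at this
  have hmoB : ∀ v : Fin m → ℕ, IsAlgebraic B (π (mo (fun i => (v i : ℤ)))) := by
    intro v
    rw [x1_nat, map_prod]
    have key : ∀ s : Finset (Fin m), IsAlgebraic B (∏ i ∈ s, π ((mo (Pi.single i 1) : LM m) ^ v i)) := by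
      intro s
      induction s using Finset.induction_on with
      | empty => rw [Finset.prod_empty]; exact isAlgebraic_one
      | insert a s ha ih =>
        rw [Finset.prod_insert ha, map_pow]
        exact ((hyB a).pow _).mul ih
    exact key _
  have hphi : ∀ q : SP m, π (x1phi m q) = MvPolynomial.aeval y q := by
    intro q
    unfold x1phi
    rw [MvPolynomial.aeval_def, MvPolynomial.aeval_def, MvPolynomial.eval₂_comp_left]
    congr 1
    exact RingHom.ext_int _ _
  have hq : ∀ q : SP m, IsAlgebraic B (π (x1phi m q)) := by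
    intro q
    rw [hphi]
    induction q using MvPolynomial.induction_on with
    | C a =>
      rw [MvPolynomial.aeval_C, eq_intCast]
      exact hint a
    | add a b ha hb => rw [map_add]; exact ha.add hb
    | mul_X a i ha => rw [map_mul, MvPolynomial.aeval_X]; exact ha.mul (hyB i)
  have hF : ∀ F : LM m, IsAlgebraic B (π F) := by
    intro F
    obtain ⟨v, q, h⟩ := x1_clear F
    have hu : IsUnit (mo (fun i => (v i : ℤ)) : LM m) := mo_unit _
    have hne : π (mo (fun i => (v i : ℤ))) ≠ 0 := (hu.map π).ne_zero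
    have e : π F = (π (mo (fun i => (v i : ℤ))))⁻¹ * π (x1phi m q) := by
      rw [h, map_mul, inv_mul_cancel_left₀ hne]
    rw [e]
    exact (IsAlgebraic.inv_iff.2 (hmoB v)).mul (hq q)
  have halg : Algebra.IsAlgebraic B K := by
    refine ⟨fun z => ?_⟩
    obtain ⟨F, G, rfl⟩ := hfrac z
    rw [div_eq_mul_inv]
    exact (hF F).mul (IsAlgebraic.inv_iff.2 (hF G))
  have hnot : ¬ AlgebraicIndependent (ZMod p) y := by
    intro hy
    obtain ⟨v, q, hq1, hq2⟩ := x1_rel f hf2
    have h0 : MvPolynomial.aeval y q = 0 := by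
      rw [← hphi, hq1, map_mul, hf, mul_zero]
    obtain ⟨q', hq'⟩ := B3a_intpoly p K y hy q h0
    exact hq2 q' hq'
  obtain ⟨t, ht, htb⟩ := exists_isTranscendenceBasis_subset (R := ZMod p) (A := K) (Set.range y)
  have hfin : t.Finite := (Set.finite_range y).subset ht
  let _ : Fintype t := hfin.fintype
  choose e he using fun a : t => ht a.2
  have hinj : Function.Injective e := by
    intro a b hab
    apply Subtype.ext
    rw [← he a, ← he b, hab]
  have hns : ¬ Function.Surjective e := by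
    intro hs
    apply hnot
    let E := Equiv.ofBijective e ⟨hinj, hs⟩
    have h1 := htb.1.comp E.symm E.symm.injective
    have h2 : (((↑) : t → K) ∘ E.symm) = y := by
      funext i
      change ((E.symm i : t) : K) = y i
      rw [← he (E.symm i)]
      congr 1
      exact E.apply_symm_apply i
    rwa [h2] at h1
  have hcard : Fintype.card t < m := by
    have := Fintype.card_lt_of_injective_not_surjective e hinj hns
    rwa [Fintype.card_fin] at this
  have hc : Cardinal.mk t = (Fintype.card t : Cardinal) := Cardinal.mk_fintype t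
  rw [← htb.cardinalMk_eq_trdeg, hc, Nat.cast_le]
  exact Nat.le_sub_one_of_lt hcard

theorem trle_comap {m r p : ℕ} [Fact p.Prime] (theta : LamZ r →+* LM m) (P : Ideal (LM m))
    [P.IsPrime] (hp : (p : LM m) ∈ P) (f : LM m) (hf : f ∈ P) (hf2 : ¬ (p : LM m) ∣ f) :
    TrLe p (m - 1) (P.comap theta) := by
  have hp2 : p.Prime := Fact.out
  obtain ⟨K, iK, π, hπ, hfrac⟩ : ∃ (K : Type) (_ : Field K) (π : LM m →+* K),
      (∀ x, π x = 0 ↔ x ∈ P) ∧ ∀ z : K, ∃ F G : LM m, z = π F / π G := by
    refine ⟨FractionRing (LM m ⧸ P), inferInstance,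
      (algebraMap (LM m ⧸ P) (FractionRing (LM m ⧸ P))).comp (Ideal.Quotient.mk P), ?_, ?_⟩
    · intro x
      rw [RingHom.comp_apply, map_eq_zero_iff _ (IsFractionRing.injective (LM m ⧸ P) _),
        Ideal.Quotient.eq_zero_iff_mem]
    · intro z
      obtain ⟨a, b, hb, rfl⟩ := IsFractionRing.div_surjective (A := LM m ⧸ P) z
      obtain ⟨F, rfl⟩ := Ideal.Quotient.mk_surjective a
      obtain ⟨G, rfl⟩ := Ideal.Quotient.mk_surjective b
      exact ⟨F, G, rfl⟩
  have hchar : CharP K p := by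
    rw [CharP.charP_iff_prime_eq_zero hp2]
    have := (hπ (p : LM m)).2 hp
    rwa [map_natCast] at this
  let iA : Algebra (ZMod p) K := ZMod.algebra K p
  refine ⟨K, iK, iA, π.comp theta, ?_, x1_trdeg K π hfrac f ((hπ f).2 hf) hf2⟩
  ext x
  rw [RingHom.mem_ker, Ideal.mem_comap, RingHom.comp_apply, hπ]

end Pool.Agent.WNQ
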