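import Pool.Agent.Lib.MP_2da099_lc.NQ.E
import Pool.Agent.Lib.MP_2da099_lc.NQ.T
import Pool.Agent.Lib.MP_2da099_lc.NQ.I
import Pool.Agent.Lib.MP_2da099_lc.NQ.X1
import Pool.Agent.Lib.MP_2da099_lc.UE.N6
import Pool.Agent.Lib.MP_2da099_lc.QT.W13
import Pool.Agent.Lib.MP_2da099_lc.QL.R5
import Pool.Agent.Lib.MP_2da099_lc.QL.T4

/-!
# All finitely generated metabelian groups
-/

set_option autoImplicit false

namespace Pool.Agent.WNQ

open Pool.Agent.Lib.PolyTime Pool.Agent.WPM Pool.Agent.WPR Pool.Agent.WQL Function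

open Pool.Agent.WPU (LamZ monZ vecW)

theorem ql_principal {m k : ℕ} (Q : Submodule (LM m) (Fin k → LM m)) (h : LM m) (hh : Prime h)
    (h1 : ∀ f, ¬ h ∣ f → ∀ x, f • x ∈ Q → x ∈ Q) : QL (fun I : List (IM m k) => vcM I ∈ Q) := by
  refine QL_submodule Q (fun x hx => ?_)
  obtain ⟨f, hf, hfx⟩ := hx h hh
  exact ⟨1, 0, one_pos, fun i => by rw [pow_zero, one_smul]; exact h1 f hf x hfx⟩

theorem el_words {m k : ℕ} {e : ℝ} (he : 1 ≤ e) {Q : Submodule (LM m) (Fin k → LM m)}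
    (h : EL e (fun w : List (Letter (m + k)) => vecW w ∈ Qp Q)) :
    EL e (fun I : List (IM m k) => vcM I ∈ Q) := by
  have h1 := EL.comp he h 1 (ct_flatMapFin (tau (m := m) (k := k))) (fun w => by
    have h2 : ∀ w : List (IM m k), (w.flatMap tau).length = w.length := by
      intro w
      induction w with
      | nil => rfl
      | cons a w ih =>
        have h3 : (tau a).length = 1 := by rcases a with a | κ <;> rfl
        rw [List.flatMap_cons, List.length_append, ih, h3, List.length_cons, add_comm]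
    rw [h2]
    omega)
  refine h1.congr (fun I => ?_)
  show Th (vecW (I.flatMap tau)) ∈ Q ↔ vcM I ∈ Q
  rw [Th_vecW]

theorem el_comp_zero {m k : ℕ} {e : ℝ} (he : 2 ≤ e) (Q : Submodule (LM m) (Fin k → LM m))
    (P : Ideal (LM m)) [P.IsPrime] (hZ : ∀ n : ℤ, n ≠ 0 → (n : LM m) ∉ P)
    (h1 : ∀ f, f ∉ P → ∀ x, f • x ∈ Q → x ∈ Q) (n : ℕ) (h2 : ∀ f ∈ P ^ n, ∀ x, f • x ∈ Q) :
    EL e (fun I : List (IM m k) => vcM I ∈ Q) := by
  obtain ⟨-, a2, a3⟩ := transfer Q P h1 n h2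
  have hZ' : ∀ z : ℤ, z ≠ 0 → (z : LamZ (m + k)) ∉ P.comap (th m k) := by
    intro z hz h
    rw [Ideal.mem_comap, map_intCast] at h
    exact hZ z hz h
  have h3 := Pool.Agent.WPQ.qq_comp (Qp Q) (P.comap (th m k)) hZ' a2 n a3
  exact el_words (le_trans one_le_two he) (EL.of_qq he h3)

theorem e_expo {m : ℕ} {e : ℝ} (he : 2 ≤ e) (hm : 3 * ((m : ℝ) - 1) ≤ e * m) :
    expo (m - 1) ≤ e := by
  unfold expo
  refine max_le (le_trans one_le_two he) ?_
  rcases Nat.eq_zero_or_pos m with h | h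
  · subst h
    simp
    linarith
  · have h1 : ((m - 1 : ℕ) : ℝ) = (m : ℝ) - 1 := by
      rw [Nat.cast_sub h, Nat.cast_one]
    have h2 : (0 : ℝ) < m := by exact_mod_cast h
    rw [h1, sub_add_cancel, div_le_iff₀ h2]
    exact hm

theorem el_comp_p {m k : ℕ} {e : ℝ} (he : 2 ≤ e) (hm : 3 * ((m : ℝ) - 1) ≤ e * m)
    (Q : Submodule (LM m) (Fin k → LM m)) (P : Ideal (LM m)) [P.IsPrime] (p : ℕ)
    (hp : p.Prime) (hpP : (p : LM m) ∈ P)
    (h1 : ∀ f, f ∉ P → ∀ x, f • x ∈ Q → x ∈ Q) (n : ℕ) (h2 : ∀ f ∈ P ^ n, ∀ x, f • x ∈ Q) :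
    EL e (fun I : List (IM m k) => vcM I ∈ Q) := by
  have : Fact p.Prime := ⟨hp⟩
  have he1 : 1 ≤ e := le_trans one_le_two he
  by_cases hP : ∀ f ∈ P, ((p : ℕ) : LM m) ∣ f
  · exact EL.of_ql he1 (ql_principal Q ((p : ℕ) : LM m) (t4_prime_nat hp)
      (fun f hf x hx => h1 f (fun hfP => hf (hP f hfP)) x hx))
  · push Not at hP
    obtain ⟨f, hf, hf2⟩ := hP
    obtain ⟨-, a2, a3⟩ := transfer Q P h1 n h2
    have htr := trle_comap (th m k) P hpP f hf hf2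
    have hpP' : ((p : ℕ) : LamZ (m + k)) ∈ P.comap (th m k) := by
      rw [Ideal.mem_comap, map_natCast]
      exact hpP
    have h3 := Pool.Agent.WPU.good_comp_p (Qp Q) (P.comap (th m k)) p hp hpP' htr a2 n a3
    exact el_words he1 (EL.of_good (e_expo he hm) h3)

theorem el_submodule {m k : ℕ} {e : ℝ} (he : 2 ≤ e) (hm : 3 * ((m : ℝ) - 1) ≤ e * m)
    (N : Submodule (LM m) (Fin k → LM m)) : EL e (fun I : List (IM m k) => vcM I ∈ N) := by
  obtain ⟨s, Q, P, hQ, hP⟩ := comps_LM N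
  refine (EL_forall (le_trans one_le_two he) s (fun i I => vcM I ∈ Q i) (fun i => ?_)).congr
    (fun I => (hQ (vcM I)).symm)
  obtain ⟨hPi, hZ, h1, n, h2⟩ := hP i
  have := hPi
  rcases hZ with hZ | ⟨p, hp, hpP⟩
  · exact el_comp_zero he (Q i) (P i) hZ h1 n h2
  · exact el_comp_p he hm (Q i) (P i) p hp hpP h1 n h2

universe u

theorem el_group {G : Type u} [Group G] (A : Subgroup G) [A.Normal]
    (hcomm : ∀ a ∈ A, ∀ b ∈ A, a * b = b * a)
    (hquot : ∀ x y : G, x * y * x⁻¹ * y⁻¹ ∈ A) {r m : ℕ} (g : Fin r → G)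
    (hg : Subgroup.closure (Set.range g) = ⊤) (x : Fin m → G)
    (hx : ∀ h : G, ∃ k, 0 < k ∧ h ^ k ∈ Subgroup.closure (Set.range x) ⊔ A) {e : ℝ} (he : 2 ≤ e)
    (h : (∀ a ∈ A, ∀ n : ℕ, 0 < n → a ^ n = 1 → a = 1) ∨ 3 * ((m : ℝ) - 1) ≤ e * m) :
    EL e (fun w : List (Letter r) => value g w = 1) := by
  rcases h with h | h
  · exact EL.of_qq he (Pool.Agent.WPQ.qq_group A hcomm hquot h g)
  · obtain ⟨k, N, tr, C, htr, hlen, hval⟩ := exists_instrN A hcomm hquot g hg x hx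
    exact (EL.comp (le_trans one_le_two he) (el_submodule he h N) C htr hlen).congr
      (fun w => (hval w).symm)

end Pool.Agent.WNQ
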